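import Pool.Agent.Lib.H72I.CM

/-!
MP_bf37ff_pr: every distribution on a bounded interval which is not singular with respect to the
Lebesgue measure (in particular every absolutely continuous one) is `n`-completely mixable for all
large `n`; for singular distributions this can fail for every `n`.
-/

set_option autoImplicit false

open MeasureTheory

namespace Pool.Agent.Results.MP_bf37ff_pr.NonsingularLaws

/-- The distribution `F` is `n`-completely mixable: there are random variables `X 0, …, X (n-1)` on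
one probability space `(Ω, P)`, each with law `F`, such that `X 0 + … + X (n-1)` is almost surely
equal to a constant. -/
def IsCompletelyMixable (n : ℕ) (F : Measure ℝ) : Prop :=
  ∃ (Ω : Type) (_ : MeasurableSpace Ω) (P : Measure Ω) (X : Fin n → Ω → ℝ),
    IsProbabilityMeasure P ∧ (∀ i, Measurable (X i)) ∧ (∀ i, P.map (X i) = F) ∧
      ∃ c : ℝ, ∀ᵐ ω ∂P, ∑ i, X i ω = c

/-- The distribution `F` is on a bounded interval. -/
def IsOnBoundedInterval (F : Measure ℝ) : Prop :=
  ∃ a b : ℝ, a < b ∧ F (Set.Icc a b) = 1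

/-- The law of a random variable which is `1` with probability `p` and `0` with probability
`1 - p`. -/
noncomputable def twoPointLaw (p : ℝ) : Measure ℝ :=
  ENNReal.ofReal p • Measure.dirac 1 + ENNReal.ofReal (1 - p) • Measure.dirac 0

theorem nonsingular (F : Measure ℝ) (h1 : IsProbabilityMeasure F) (h2 : IsOnBoundedInterval F)
    (h3 : ¬ F ⟂ₘ volume) : ∃ N : ℕ, ∀ n : ℕ, N ≤ n → IsCompletelyMixable n F := by
  obtain ⟨a, b, -, hF⟩ := h2
  have hc : F (Set.Icc a b)ᶜ = 0 := (prob_compl_eq_zero_iff measurableSet_Icc).2 hF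
  obtain ⟨N, hN⟩ := H72I.main_ns F h3 a b hc
  refine ⟨N, fun n hn => ?_⟩
  obtain ⟨ν, hν, hmarg, hsum⟩ := hN n hn
  refine ⟨Fin n → ℝ, inferInstance, ν, fun i x => x i, hν, fun i => measurable_pi_apply i, hmarg,
    n * ∫ x, x ∂F, ?_⟩
  filter_upwards [hsum] with x hx
  exact hx.2

theorem twoPoint (p : ℝ) (h0 : 0 < p) (h1 : p < 1) (hp : Irrational p) (n : ℕ) (hn : 1 ≤ n) :
    ¬ IsCompletelyMixable n (twoPointLaw p) := by
  rintro ⟨Ω, _, P, X, hP, hX, hlaw, c, hc⟩
  have hzero : twoPointLaw p ({0, 1} : Set ℝ)ᶜ = 0 := by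
    unfold twoPointLaw
    simp
  have hae : ∀ i, ∀ᵐ ω ∂P, X i ω = 0 ∨ X i ω = 1 := by
    intro i
    have h2 : P (X i ⁻¹' ({0, 1} : Set ℝ)ᶜ) = 0 := by
      rw [← Measure.map_apply (hX i) (by measurability), hlaw i]
      exact hzero
    have h3 : ∀ᵐ ω ∂P, ω ∉ X i ⁻¹' ({0, 1} : Set ℝ)ᶜ := measure_eq_zero_iff_ae_notMem.1 h2
    filter_upwards [h3] with ω hω
    by_contra hcon
    apply hω
    intro h4
    exact hcon h4
  have hint : ∀ i, Integrable (X i) P := by
    intro i
    refine Integrable.of_bound (hX i).aestronglyMeasurable 1 ?_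
    filter_upwards [hae i] with ω hω
    rcases hω with h | h <;> rw [h] <;> norm_num
  have hmean : ∀ i, ∫ ω, X i ω ∂P = p := by
    intro i
    have h2 : ∫ ω, X i ω ∂P = ∫ x, x ∂(P.map (X i)) :=
      (integral_map (f := fun x : ℝ => x) (hX i).aemeasurable aestronglyMeasurable_id).symm
    rw [h2, hlaw i]
    unfold twoPointLaw
    rw [integral_add_measure, integral_smul_measure, integral_smul_measure, integral_dirac,
      integral_dirac, ENNReal.toReal_ofReal h0.le]
    · simp
    · exact (integrable_dirac (by simp)).smul_measure ENNReal.ofReal_ne_top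
    · exact (integrable_dirac (by simp)).smul_measure ENNReal.ofReal_ne_top
  have hsum : (n : ℝ) * p = c := by
    have h2 : ∫ ω, ∑ i, X i ω ∂P = c := by
      rw [integral_congr_ae hc]
      simp
    rw [integral_finsetSum _ (fun i _ => hint i)] at h2
    rw [← h2, Finset.sum_congr rfl fun i _ => hmean i]
    simp
  obtain ⟨ω, hω1, hω2⟩ := ((ae_all_iff.2 hae).and hc).exists
  have hk : ∃ k : ℕ, c = k := by
    refine ⟨∑ i, if X i ω = 1 then 1 else 0, ?_⟩
    rw [← hω2]
    push_cast
    refine Finset.sum_congr rfl fun i _ => ?_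
    rcases hω1 i with h | h
    · rw [h]; simp
    · rw [h]; simp
  obtain ⟨k, hk⟩ := hk
  have hn0 : (n : ℝ) ≠ 0 := by
    have : n ≠ 0 := by omega
    exact_mod_cast this
  apply hp
  refine ⟨(k : ℚ) / n, ?_⟩
  push_cast
  rw [div_eq_iff hn0, ← hk, ← hsum]
  ring

/-- (1) Every distribution on a bounded interval that is not singular with respect to the Lebesgue
measure is `n`-completely mixable for all sufficiently large `n`. (2) In particular this holds for
every absolutely continuous distribution on a bounded interval. (3) It can fail for singular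
distributions: the law on `{0, 1}` with irrational mass `p` at `1` is not `n`-completely mixable for
any `n ≥ 1`. -/
theorem result :
    (∀ F : Measure ℝ, IsProbabilityMeasure F → IsOnBoundedInterval F → ¬ F ⟂ₘ volume →
      ∃ N : ℕ, ∀ n : ℕ, N ≤ n → IsCompletelyMixable n F) ∧
    (∀ F : Measure ℝ, IsProbabilityMeasure F → IsOnBoundedInterval F → F ≪ volume →
      ∃ N : ℕ, ∀ n : ℕ, N ≤ n → IsCompletelyMixable n F) ∧
    ∀ p : ℝ, 0 < p → p < 1 → Irrational p → ∀ n : ℕ, 1 ≤ n →
      ¬ IsCompletelyMixable n (twoPointLaw p) := by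
  refine ⟨nonsingular, fun F h1 h2 h3 => nonsingular F h1 h2 fun hs => ?_, twoPoint⟩
  have h4 : F = 0 := Measure.eq_zero_of_absolutelyContinuous_of_mutuallySingular h3 hs
  have h5 : F Set.univ = 1 := measure_univ
  rw [h4] at h5
  simp at h5

end Pool.Agent.Results.MP_bf37ff_pr.NonsingularLaws
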